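import Pool.Agent.Helper37.Arb.Goals

/-!
# Packet ARB-COEFF (MP_2b0227_gt)
-/

namespace Pool.Agent.Helper54.Arb

open Pool.Agent.Helper37.Arb Polynomial

theorem eq_of_pos {p q : ℝ[X]} (h : ∀ x : ℝ, 0 < x → p.eval x = q.eval x) : p = q := by
  apply Polynomial.eq_of_infinite_eval_eq
  apply Set.Infinite.mono (s := Set.Ioi (0 : ℝ))
  · intro x hx
    exact h x hx
  · exact Set.Ioi_infinite 0

theorem coeff : GoalCoeff := by
  intro Q b m h i
  set c : ℤ →+* ℝ := Int.castRingHom ℝ with hc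
  set q : ℝ[X] := (Q.map c).comp (-X) with hq
  set B : ℝ[X] := b.map c with hB
  have hqe : ∀ x : ℝ, q.eval x = (aeval (-x) Q : ℝ) := by
    intro x
    rw [hq, eval_comp, eval_neg, eval_X, eval_map, aeval_def]
    rfl
  have hBe : ∀ x : ℝ, B.eval x = (aeval x b : ℝ) := by
    intro x
    rw [hB, eval_map, aeval_def]
    rfl
  have hqc : ∀ j, q.coeff j = (-1 : ℝ) ^ j * (Q.coeff j : ℝ) := by
    intro j
    have e1 : (-X : ℝ[X]) = C (-1) * X := by simp
    rw [hq, e1, comp_C_mul_X_coeff, coeff_map, mul_comm]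
    simp [hc]
  have hBc : ∀ j, B.coeff j = (b.coeff j : ℝ) := by
    intro j
    rw [hB, coeff_map]
    simp [hc]
  rw [← hqc]
  unfold seq
  obtain ⟨n, rfl | rfl⟩ := m.eq_nat_or_neg
  · have e : q = X ^ n * B := by
      apply eq_of_pos
      intro x hx
      rw [hqe, h x hx, eval_mul, eval_pow, eval_X, hBe, zpow_natCast]
    rw [e, coeff_X_pow_mul']
    by_cases hn : n ≤ i
    · rw [if_pos hn, if_pos (by omega), hBc]
      congr 2
      omega
    · rw [if_neg hn, if_neg (by omega)]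
  · have e : X ^ n * q = B := by
      apply eq_of_pos
      intro x hx
      rw [eval_mul, eval_pow, eval_X, hqe, h x hx, hBe, ← mul_assoc, zpow_neg, zpow_natCast,
        mul_inv_cancel₀ (pow_ne_zero _ hx.ne'), one_mul]
    rw [if_pos (by omega), ← hBc, ← e]
    have e2 : ((i : ℤ) - -(n : ℤ)).toNat = i + n := by omega
    rw [e2, coeff_X_pow_mul]

end Pool.Agent.Helper54.Arb
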